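import Pool.Agent.H98.CE.Targets

/-!
# Row BK3 of cel_modules: the densities of the first blocks
-/

set_option autoImplicit false

open MeasureTheory ProbabilityTheory Filter Topology
open Pool.Agent.H95 Pool.Agent.H95.Cop Pool.Agent.H98.CE
open Pool.Agent.H55.CG (VV Mo)

namespace Pool.Agent.H67.CEL

open Classical in
/-- pointwise bound -/
theorem bk3_pt {A E γ s : ℝ} {P : Prop} (hA : 0 ≤ A) (hE : 0 < E) (hs : 0 < s) (hγ : s < γ) :
    (if P then A ^ γ else 0) - E ^ s * A ^ (γ - s) ≤ if P ∧ E ≤ A then A ^ γ else 0 := by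
  have h0 : 0 ≤ E ^ s * A ^ (γ - s) :=
    mul_nonneg (Real.rpow_nonneg hE.le _) (Real.rpow_nonneg hA _)
  have h1 : 0 ≤ A ^ γ := Real.rpow_nonneg hA _
  by_cases hP : P
  · by_cases hEA : E ≤ A
    · rw [if_pos hP, if_pos ⟨hP, hEA⟩]
      linarith
    · rw [if_pos hP, if_neg (fun h => hEA h.2)]
      push Not at hEA
      have h2 : A ^ γ ≤ E ^ s * A ^ (γ - s) := by
        rcases hA.eq_or_lt with h | h
        · rw [← h, Real.zero_rpow (by linarith)]
          rw [← h] at h0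
          exact h0
        · have h3 : A ^ γ = A ^ s * A ^ (γ - s) := by
            rw [← Real.rpow_add h]
            congr 1
            ring
          rw [h3]
          exact mul_le_mul_of_nonneg_right (Real.rpow_le_rpow hA hEA.le hs.le)
            (Real.rpow_nonneg hA _)
      linarith
  · rw [if_neg hP, if_neg (fun h => hP h.1)]
    linarith

theorem pf_BK3 (hBK2 : T_BK2) (hBL2 : T_BL2) (hAAB : T_AAB) (hAAM : T_AAM) : T_BK3 := by
  intro K ν _ hint ℓ α β κ s hℓ hα hκ hκ1 hHK hs hsγ hβ hM1 hM2 hM3 aY aV np J j jj b haY hj hb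
  classical
  set γ : ℝ := 1 / (1 + α) with hγ
  have hγ0 : 0 < γ := by rw [hγ]; positivity
  have hγ1 : γ ≤ 1 := by
    rw [hγ, div_le_one (by linarith)]
    linarith
  have hII : ∀ i ∈ II np J jj, i.1 < i.2 ∧ i.2 < np := by
    intro i hi
    unfold II at hi
    rw [Finset.mem_filter, Finset.mem_product, Finset.mem_range, Finset.mem_range] at hi
    exact ⟨hi.2.1, hi.1.2⟩
  have hA0 : ∀ i ∈ II np J jj, ∀ x : ℕ → ℝ, 0 ≤ AA K ℓ α κ aY aV i.1 i.2 x := by
    intro i hi x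
    obtain ⟨h1, h2⟩ := hII i hi
    exact (hAAB K ℓ α κ hℓ hα hκ.le hHK x aY aV np i.1 i.2 haY h1 h2).1
  have hi1 : ∀ i ∈ II np J jj,
      Integrable (fun x : ℕ → ℝ => AA K ℓ α κ aY aV i.1 i.2 x ^ γ) (iid ν) := fun i hi =>
    (hBL2 K ν hint ℓ α κ γ (2 + Mo ν 1 ^ ℓ) aY aV i.1 i.2 hℓ hα hκ.le hκ1 hγ0 hγ1 haY
      (hII i hi).1 hM1 hM3 le_rfl).1
  have hi2 : ∀ i ∈ II np J jj,
      Integrable (fun x : ℕ → ℝ => AA K ℓ α κ aY aV i.1 i.2 x ^ (γ - s)) (iid ν) := fun i hi =>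
    (hBL2 K ν hint ℓ α κ (γ - s) (2 + Mo ν 1 ^ ℓ) aY aV i.1 i.2 hℓ hα hκ.le hκ1 (by linarith)
      (by linarith) haY (hII i hi).1 hM2 hM3 le_rfl).1
  have hmA : ∀ i : ℕ × ℕ, Measurable (fun x : ℕ → ℝ => AA K ℓ α κ aY aV i.1 i.2 x) := fun i =>
    (hAAM K ℓ α κ aY aV np i.1 i.2).1
  have hmS : ∀ i : ℕ × ℕ, MeasurableSet {x : ℕ → ℝ | sg ℓ aY aV np i.1 i.2 x} := fun i =>
    (hAAM K ℓ α κ aY aV np i.1 i.2).2.1
  -- integrability with the events
  have hi3 : ∀ i ∈ II np J jj, Integrable (fun x : ℕ → ℝ => if sg ℓ aY aV np i.1 i.2 x then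
      AA K ℓ α κ aY aV i.1 i.2 x ^ γ else 0) (iid ν) := by
    intro i hi
    refine Integrable.mono' (hi1 i hi)
      (Measurable.ite (hmS i) ((hmA i).pow_const γ) measurable_const).aestronglyMeasurable
      (Filter.Eventually.of_forall fun x => ?_)
    have h1 := Real.rpow_nonneg (hA0 i hi x) γ
    split_ifs
    · rw [Real.norm_of_nonneg h1]
    · rw [norm_zero]
      exact h1
  have hi4 : ∀ i ∈ II np J jj, Integrable (fun x : ℕ → ℝ => if sg ℓ aY aV np i.1 i.2 x ∧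
      Real.exp (β * j) ≤ AA K ℓ α κ aY aV i.1 i.2 x then
      AA K ℓ α κ aY aV i.1 i.2 x ^ γ else 0) (iid ν) := by
    intro i hi
    have hms : MeasurableSet {x : ℕ → ℝ | sg ℓ aY aV np i.1 i.2 x ∧
        Real.exp (β * j) ≤ AA K ℓ α κ aY aV i.1 i.2 x} :=
      (hmS i).inter (measurableSet_le measurable_const (hmA i))
    refine Integrable.mono' (hi1 i hi)
      (Measurable.ite hms ((hmA i).pow_const γ) measurable_const).aestronglyMeasurable
      (Filter.Eventually.of_forall fun x => ?_)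
    have h1 := Real.rpow_nonneg (hA0 i hi x) γ
    split_ifs
    · rw [Real.norm_of_nonneg h1]
    · rw [norm_zero]
      exact h1
  have hE : ∀ i ∈ (II np J jj).filter (fun i => jj (i.2 - i.1) = j), b ≤
      ∫ x : ℕ → ℝ, (if sg ℓ aY aV np i.1 i.2 x ∧
        Real.exp (β * j) ≤ AA K ℓ α κ aY aV i.1 i.2 x then
        AA K ℓ α κ aY aV i.1 i.2 x ^ γ else 0) ∂(iid ν) := by
    intro i hi
    obtain ⟨hi', hj'⟩ := Finset.mem_filter.1 hi
    refine (hb i hi' hj').trans ?_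
    rw [← integral_const_mul, ← integral_sub (hi3 i hi') ((hi2 i hi').const_mul _)]
    refine integral_mono ((hi3 i hi').sub ((hi2 i hi').const_mul _)) (hi4 i hi') fun x => ?_
    have h1 := bk3_pt (A := AA K ℓ α κ aY aV i.1 i.2 x) (E := Real.exp (β * j)) (γ := γ) (s := s)
      (P := sg ℓ aY aV np i.1 i.2 x) (hA0 i hi' x) (Real.exp_pos _) hs hsγ
    have h2 : Real.exp (β * j) ^ s = Real.exp (s * (β * j)) := by
      rw [← Real.exp_mul]
      ring_nf
    rw [h2] at h1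
    exact h1
  have hfun : (fun x : ℕ → ℝ => if l0 K ℓ α β κ aY aV np J jj x = j then
      w0 K ℓ α β κ aY aV np J jj x ^ γ else 0) = fun x =>
      ∑ i ∈ (II np J jj).filter (fun i => jj (i.2 - i.1) = j),
        if sg ℓ aY aV np i.1 i.2 x ∧ Real.exp (β * j) ≤ AA K ℓ α κ aY aV i.1 i.2 x then
          AA K ℓ α κ aY aV i.1 i.2 x ^ γ else 0 := by
    funext x
    exact (hBK2 K ℓ α β κ hℓ hα hκ.le hHK aY aV np J jj haY x γ hγ0).1 j hj
  rw [hfun, integral_finsetSum _ (fun i hi => hi4 i (Finset.mem_filter.1 hi).1)]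
  calc (((II np J jj).filter (fun i => jj (i.2 - i.1) = j)).card : ℝ) * b =
      ∑ _i ∈ (II np J jj).filter (fun i => jj (i.2 - i.1) = j), b := by
        rw [Finset.sum_const, nsmul_eq_mul]
    _ ≤ _ := Finset.sum_le_sum hE

end Pool.Agent.H67.CEL
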