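import Pool.Agent.H98.CE.Targets
import Pool.Agent.H55.CG.Targets
import Pool.Agent.H68.CEL.AAM

/-!
# Row BL2 of cel_modules: moments of order at most one, from above
-/

set_option autoImplicit false

open MeasureTheory ProbabilityTheory Filter Topology
open Pool.Agent.H95 Pool.Agent.H95.Cop Pool.Agent.H98.CE
open Pool.Agent.H55.CG (VV Mo)

namespace Pool.Agent.H67.CEL

theorem uu_nn (K : PMF ℕ) (n : ℕ) : 0 ≤ uu (kk K) n := by
  induction n using Nat.strong_induction_on with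
  | _ n ih =>
    cases n with
    | zero => rw [uu]; norm_num
    | succ n =>
      rw [uu]
      refine Finset.sum_nonneg fun j _ => mul_nonneg ENNReal.toReal_nonneg ?_
      exact ih _ (by omega)

theorem Mo_nn (ν : Measure ℝ) (s : ℝ) : 0 ≤ Mo ν s :=
  integral_nonneg fun _ => (Real.exp_pos _).le

theorem Mo_z (ν : Measure ℝ) [IsProbabilityMeasure ν] : Mo ν 0 = 1 := by
  unfold Mo
  simp

/-- exponentials of two consecutive stretches -/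
theorem expH (hPRE : Pool.Agent.H55.CG.T_PRE) (ν : Measure ℝ) [IsProbabilityMeasure ν]
    (hint : ∀ t : ℝ, Integrable (fun z => Real.exp (t * z)) ν) (s t : ℝ) {a b c : ℕ}
    (hab : a ≤ b) (hbc : b ≤ c) :
    Integrable (fun x : ℕ → ℝ => Real.exp (s * H x a b + t * H x b c)) (iid ν) ∧
    ∫ x : ℕ → ℝ, Real.exp (s * H x a b + t * H x b c) ∂(iid ν) =
      Mo ν s ^ (b - a) * Mo ν t ^ (c - b) := by
  set w : ℕ → ℝ := fun i => if i < a then 0 else if i < b then s else t with hw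
  have w1 : ∀ i ∈ Finset.Ico 0 a, w i = 0 := by
    intro i hi
    rw [Finset.mem_Ico] at hi
    simp [hw, hi.2]
  have w2 : ∀ i ∈ Finset.Ico a b, w i = s := by
    intro i hi
    rw [Finset.mem_Ico] at hi
    simp [hw, not_lt.2 hi.1, hi.2]
  have w3 : ∀ i ∈ Finset.Ico b c, w i = t := by
    intro i hi
    rw [Finset.mem_Ico] at hi
    simp [hw, not_lt.2 hi.1, not_lt.2 (hab.trans hi.1)]
  obtain ⟨h1, h2⟩ := hPRE ν hint w c
  have e : ∀ x : ℕ → ℝ, ∑ i ∈ Finset.range c, w i * x i = s * H x a b + t * H x b c := by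
    intro x
    rw [Finset.range_eq_Ico, ← Finset.sum_Ico_consecutive _ (Nat.zero_le a) (hab.trans hbc),
      ← Finset.sum_Ico_consecutive _ hab hbc]
    unfold H
    rw [Finset.mul_sum, Finset.mul_sum]
    have e1 : ∑ i ∈ Finset.Ico 0 a, w i * x i = 0 :=
      Finset.sum_eq_zero fun i hi => by rw [w1 i hi, zero_mul]
    rw [e1, zero_add]
    congr 1
    · exact Finset.sum_congr rfl fun i hi => by rw [w2 i hi]
    · exact Finset.sum_congr rfl fun i hi => by rw [w3 i hi]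
  have e' : ∏ i ∈ Finset.range c, Mo ν (w i) = Mo ν s ^ (b - a) * Mo ν t ^ (c - b) := by
    rw [Finset.range_eq_Ico, ← Finset.prod_Ico_consecutive _ (Nat.zero_le a) (hab.trans hbc),
      ← Finset.prod_Ico_consecutive _ hab hbc]
    have e1 : ∏ i ∈ Finset.Ico 0 a, Mo ν (w i) = 1 :=
      Finset.prod_eq_one fun i hi => by rw [w1 i hi, Mo_z]
    rw [e1, one_mul]
    congr 1
    · rw [Finset.prod_congr rfl fun i hi => by rw [w2 i hi], Finset.prod_const, Nat.card_Ico]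
    · rw [Finset.prod_congr rfl fun i hi => by rw [w3 i hi], Finset.prod_const, Nat.card_Ico]
  simp only [e] at h1 h2
  exact ⟨h1, h2.trans e'⟩

/-- the mass of the pairs of sites of a cell -/
theorem sum_cell (f : ℕ → ℝ) (ℓ a : ℕ) :
    ∑ y ∈ Finset.Ico (a * ℓ) ((a + 1) * ℓ), ∑ z ∈ Finset.Ico y ((a + 1) * ℓ), f (z - y) =
      ∑ y ∈ Finset.range ℓ, ∑ z ∈ Finset.Ico y ℓ, f (z - y) := by
  have h0 : (a + 1) * ℓ = a * ℓ + ℓ := by ring
  rw [Finset.sum_Ico_eq_sum_range, h0, Nat.add_sub_cancel_left]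
  apply Finset.sum_congr rfl
  intro i hi
  rw [Finset.mem_range] at hi
  rw [Finset.sum_Ico_eq_sum_range, Finset.sum_Ico_eq_sum_range]
  have h1 : a * ℓ + ℓ - (a * ℓ + i) = ℓ - i := by omega
  rw [h1]
  apply Finset.sum_congr rfl
  intro j _
  congr 1
  omega

theorem Mo_pow_le (ν : Measure ℝ) {ℓ m : ℕ} (hm : m ≤ ℓ) : Mo ν 1 ^ m ≤ 1 + Mo ν 1 ^ ℓ := by
  have h0 := Mo_nn ν 1
  rcases le_total (Mo ν 1) 1 with h | h
  · have h1 : Mo ν 1 ^ m ≤ 1 := pow_le_one₀ h0 h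
    have h2 : 0 ≤ Mo ν 1 ^ ℓ := pow_nonneg h0 _
    linarith
  · have h1 : Mo ν 1 ^ m ≤ Mo ν 1 ^ ℓ := pow_le_pow_right₀ h hm
    linarith

theorem rpow_le_one_add {t p : ℝ} (ht : 0 ≤ t) (hp : 0 < p) (hp1 : p ≤ 1) : t ^ p ≤ 1 + t := by
  rcases le_total t 1 with h | h
  · have := Real.rpow_le_one ht h hp.le
    linarith
  · have h1 : t ^ p ≤ t ^ (1 : ℝ) := Real.rpow_le_rpow_of_exponent_le h hp1
    rw [Real.rpow_one] at h1
    linarith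

/-- one of the two sums, general form -/
theorem cell_bound (ν : Measure ℝ) [IsProbabilityMeasure ν] (K : PMF ℕ) (ℓ a : ℕ)
    (hV : 0 < VV K ℓ) {B p : ℝ} (hB : 2 + Mo ν 1 ^ ℓ ≤ B) (hp : 0 < p) (hp1 : p ≤ 1)
    (E : ℕ → ℕ → (ℕ → ℝ) → ℝ) (hE0 : ∀ y z x, 0 ≤ E y z x)
    (hEi : ∀ y ∈ Finset.Ico (a * ℓ) ((a + 1) * ℓ), ∀ z ∈ Finset.Ico y ((a + 1) * ℓ),
      Integrable (E y z) (iid ν) ∧ ∫ x, E y z x ∂(iid ν) ≤ 1 + Mo ν 1 ^ ℓ)
    (F : (ℕ → ℝ) → ℝ) (hFm : Measurable F)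
    (hF : ∀ x, F x = (∑ y ∈ Finset.Ico (a * ℓ) ((a + 1) * ℓ), ∑ z ∈ Finset.Ico y ((a + 1) * ℓ),
      uu (kk K) (z - y) * E y z x) / VV K ℓ) :
    Integrable (fun x => F x ^ p) (iid ν) ∧ ∫ x, F x ^ p ∂(iid ν) ≤ B := by
  have hF0 : ∀ x, 0 ≤ F x := by
    intro x
    rw [hF]
    exact div_nonneg (Finset.sum_nonneg fun y _ => Finset.sum_nonneg fun z _ =>
      mul_nonneg (uu_nn K _) (hE0 _ _ _)) hV.le
  have hFe : F = fun x => (∑ y ∈ Finset.Ico (a * ℓ) ((a + 1) * ℓ),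
      ∑ z ∈ Finset.Ico y ((a + 1) * ℓ), uu (kk K) (z - y) * E y z x) / VV K ℓ := funext hF
  have hint : Integrable F (iid ν) := by
    rw [hFe]
    exact (integrable_finsetSum _ fun y hy => integrable_finsetSum _ fun z hz =>
      (hEi y hy z hz).1.const_mul _).div_const _
  have hle : ∫ x, F x ∂(iid ν) ≤ 1 + Mo ν 1 ^ ℓ := by
    rw [hFe, integral_div, integral_finsetSum _ (fun y hy => integrable_finsetSum _ fun z hz =>
      (hEi y hy z hz).1.const_mul _)]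
    rw [div_le_iff₀ hV]
    have h1 : ∀ y ∈ Finset.Ico (a * ℓ) ((a + 1) * ℓ),
        ∫ x, ∑ z ∈ Finset.Ico y ((a + 1) * ℓ), uu (kk K) (z - y) * E y z x ∂(iid ν) ≤
        (1 + Mo ν 1 ^ ℓ) * ∑ z ∈ Finset.Ico y ((a + 1) * ℓ), uu (kk K) (z - y) := by
      intro y hy
      rw [integral_finsetSum _ (fun z hz => (hEi y hy z hz).1.const_mul _), Finset.mul_sum]
      apply Finset.sum_le_sum
      intro z hz
      rw [integral_const_mul, mul_comm]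
      exact mul_le_mul_of_nonneg_right (hEi y hy z hz).2 (uu_nn K _)
    refine (Finset.sum_le_sum h1).trans ?_
    rw [← Finset.mul_sum, sum_cell]
    exact le_rfl
  have hpi : Integrable (fun x => F x ^ p) (iid ν) := by
    refine Integrable.mono' ((integrable_const (1 : ℝ)).add hint)
      (hFm.pow_const p).aestronglyMeasurable (Filter.Eventually.of_forall fun x => ?_)
    rw [Real.norm_of_nonneg (Real.rpow_nonneg (hF0 x) _)]
    exact rpow_le_one_add (hF0 x) hp hp1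
  refine ⟨hpi, ?_⟩
  calc ∫ x, F x ^ p ∂(iid ν) ≤ ∫ x, (1 + F x) ∂(iid ν) :=
        integral_mono hpi ((integrable_const (1 : ℝ)).add hint)
          fun x => rpow_le_one_add (hF0 x) hp hp1
    _ = 1 + ∫ x, F x ∂(iid ν) := by
        rw [integral_add (integrable_const _) hint]
        simp
    _ ≤ B := by linarith

theorem Rr_nn {K : PMF ℕ} {ℓ : ℕ} (hV : 0 < VV K ℓ) (x : ℕ → ℝ) (a : ℕ) : 0 ≤ Rr K ℓ x a := by
  unfold Rr
  exact div_nonneg (Finset.sum_nonneg fun y _ => Finset.sum_nonneg fun z _ =>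
    mul_nonneg (uu_nn K _) (Real.exp_pos _).le) hV.le

theorem Ll_nn {K : PMF ℕ} {ℓ : ℕ} (hV : 0 < VV K ℓ) (x : ℕ → ℝ) (a : ℕ) : 0 ≤ Ll K ℓ x a := by
  unfold Ll
  exact div_nonneg (Finset.sum_nonneg fun y _ => Finset.sum_nonneg fun z _ =>
    mul_nonneg (uu_nn K _) (Real.exp_pos _).le) hV.le

theorem Rr_bound (hPRE : Pool.Agent.H55.CG.T_PRE) (ν : Measure ℝ) [IsProbabilityMeasure ν]
    (hint : ∀ t : ℝ, Integrable (fun z => Real.exp (t * z)) ν) (K : PMF ℕ) (ℓ a : ℕ)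
    (hV : 0 < VV K ℓ) {B p : ℝ} (hB : 2 + Mo ν 1 ^ ℓ ≤ B) (hp : 0 < p) (hp1 : p ≤ 1)
    (hM : Mo ν (1 / 2) ≤ 1) :
    Integrable (fun x : ℕ → ℝ => Rr K ℓ x a ^ p) (iid ν) ∧
      ∫ x : ℕ → ℝ, Rr K ℓ x a ^ p ∂(iid ν) ≤ B := by
  refine cell_bound ν K ℓ a hV hB hp hp1
    (fun y z x => Real.exp (H x y z / 2 + H x z ((a + 1) * ℓ)))
    (fun _ _ _ => (Real.exp_pos _).le) ?_ (fun x => Rr K ℓ x a)
    (Pool.Agent.H68.CEL.measurable_Rr K ℓ a) (fun x => rfl)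
  intro y hy z hz
  rw [Finset.mem_Ico] at hy hz
  obtain ⟨h1, h2⟩ := expH hPRE ν hint (1 / 2) 1 hz.1 hz.2.le
  have e : ∀ x : ℕ → ℝ, 1 / 2 * H x y z + 1 * H x z ((a + 1) * ℓ) =
      H x y z / 2 + H x z ((a + 1) * ℓ) := fun x => by ring
  simp only [e] at h1 h2
  refine ⟨h1, ?_⟩
  rw [h2]
  have h3 : Mo ν (1 / 2) ^ (z - y) ≤ 1 := pow_le_one₀ (Mo_nn ν _) hM
  have h4 : Mo ν 1 ^ ((a + 1) * ℓ - z) ≤ 1 + Mo ν 1 ^ ℓ := by
    apply Mo_pow_le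
    have : (a + 1) * ℓ = a * ℓ + ℓ := by ring
    omega
  calc _ ≤ 1 * (1 + Mo ν 1 ^ ℓ) := mul_le_mul h3 h4 (pow_nonneg (Mo_nn ν _) _) zero_le_one
    _ = _ := one_mul _

theorem Ll_bound (hPRE : Pool.Agent.H55.CG.T_PRE) (ν : Measure ℝ) [IsProbabilityMeasure ν]
    (hint : ∀ t : ℝ, Integrable (fun z => Real.exp (t * z)) ν) (K : PMF ℕ) (ℓ a : ℕ)
    (hV : 0 < VV K ℓ) {B p : ℝ} (hB : 2 + Mo ν 1 ^ ℓ ≤ B) (hp : 0 < p) (hp1 : p ≤ 1)
    (hM : Mo ν (1 / 2) ≤ 1) :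
    Integrable (fun x : ℕ → ℝ => Ll K ℓ x a ^ p) (iid ν) ∧
      ∫ x : ℕ → ℝ, Ll K ℓ x a ^ p ∂(iid ν) ≤ B := by
  refine cell_bound ν K ℓ a hV hB hp hp1
    (fun y z x => Real.exp (H x (a * ℓ) y + H x y z / 2))
    (fun _ _ _ => (Real.exp_pos _).le) ?_ (fun x => Ll K ℓ x a)
    (Pool.Agent.H68.CEL.measurable_Ll K ℓ a) (fun x => rfl)
  intro y hy z hz
  rw [Finset.mem_Ico] at hy hz
  obtain ⟨h1, h2⟩ := expH hPRE ν hint 1 (1 / 2) hy.1 hz.1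
  have e : ∀ x : ℕ → ℝ, 1 * H x (a * ℓ) y + 1 / 2 * H x y z =
      H x (a * ℓ) y + H x y z / 2 := fun x => by ring
  simp only [e] at h1 h2
  refine ⟨h1, ?_⟩
  rw [h2]
  have h3 : Mo ν (1 / 2) ^ (z - y) ≤ 1 := pow_le_one₀ (Mo_nn ν _) hM
  have h4 : Mo ν 1 ^ (y - a * ℓ) ≤ 1 + Mo ν 1 ^ ℓ := by
    apply Mo_pow_le
    have : (a + 1) * ℓ = a * ℓ + ℓ := by ring
    omega
  calc _ ≤ (1 + Mo ν 1 ^ ℓ) * 1 := mul_le_mul h4 h3 (pow_nonneg (Mo_nn ν _) _)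
        (by have := pow_nonneg (Mo_nn ν 1) ℓ; linarith)
    _ = _ := mul_one _

theorem Ll_shift (K : PMF ℕ) (ℓ b : ℕ) (x : ℕ → ℝ) :
    Ll K ℓ x b = Ll K ℓ (shift (b * ℓ) x) 0 := by
  have h0 : (b + 1) * ℓ = b * ℓ + ℓ := by ring
  unfold Ll
  congr 1
  simp only [zero_mul, zero_add, one_mul]
  rw [Finset.sum_Ico_eq_sum_range, h0, Nat.add_sub_cancel_left, ← Finset.range_eq_Ico]
  apply Finset.sum_congr rfl
  intro i hi
  rw [Finset.mem_range] at hi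
  rw [Finset.sum_Ico_eq_sum_range, Finset.sum_Ico_eq_sum_range]
  have h1 : b * ℓ + ℓ - (b * ℓ + i) = ℓ - i := by omega
  rw [h1]
  apply Finset.sum_congr rfl
  intro j _
  rw [H_shift, H_shift]
  have e1 : b * ℓ + i + j - (b * ℓ + i) = i + j - i := by omega
  have e2 : 0 + b * ℓ = b * ℓ := by omega
  have e3 : i + b * ℓ = b * ℓ + i := by omega
  have e4 : i + j + b * ℓ = b * ℓ + i + j := by omega
  rw [e1, e2, e3, e4]

/-- one stretch -/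
theorem st_bound (hPRE : Pool.Agent.H55.CG.T_PRE) (ν : Measure ℝ) [IsProbabilityMeasure ν]
    (hint : ∀ t : ℝ, Integrable (fun z => Real.exp (t * z)) ν) (K : PMF ℕ) (ℓ a b : ℕ)
    (hab : a + 1 ≤ b) (hV : 0 < VV K ℓ) {B p : ℝ} (hB : 2 + Mo ν 1 ^ ℓ ≤ B) (hp : 0 < p)
    (hp1 : p ≤ 1) (hM : Mo ν (1 / 2) ≤ 1) :
    Integrable (fun x : ℕ → ℝ => st K ℓ x a b ^ p) (iid ν) ∧
      ∫ x : ℕ → ℝ, st K ℓ x a b ^ p ∂(iid ν) ≤ B ^ 2 * Mo ν p ^ ((b - a - 1) * ℓ) := by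
  obtain ⟨r1, r2⟩ := Rr_bound hPRE ν hint K ℓ a hV hB hp hp1 hM
  obtain ⟨l1, l2⟩ := Ll_bound hPRE ν hint K ℓ 0 hV hB hp hp1 hM
  have hB0 : 0 ≤ B := by
    have := pow_nonneg (Mo_nn ν 1) ℓ
    linarith
  -- the middle factor
  set N : ℕ := (b - a - 1) * ℓ with hN
  obtain ⟨m1, m2⟩ := expH hPRE ν hint p 0 (Nat.zero_le N) (le_refl N)
  have e0 : ∀ x : ℕ → ℝ, p * H x 0 N + 0 * H x N N = p * H x 0 N := fun x => by ring
  simp only [e0, Nat.sub_zero, Nat.sub_self, pow_zero, mul_one] at m1 m2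
  have hNb : (a + 1) * ℓ + N = b * ℓ := by
    rw [hN, ← Nat.add_mul]
    congr 1
    omega
  have hmid : ∀ x : ℕ → ℝ, H x ((a + 1) * ℓ) (b * ℓ) = H (shift ((a + 1) * ℓ) x) 0 N := by
    intro x
    rw [H_shift, Nat.zero_add, Nat.add_comm N, hNb]
  have hst : ∀ x : ℕ → ℝ, st K ℓ x a b ^ p = (Rr K ℓ x a ^ p *
      Real.exp (p * H (shift ((a + 1) * ℓ) x) 0 N)) * Ll K ℓ (shift (b * ℓ) x) 0 ^ p := by
    intro x
    unfold st
    rw [Real.mul_rpow (mul_nonneg (Rr_nn hV x a) (Real.exp_pos _).le) (Ll_nn hV x b),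
      Real.mul_rpow (Rr_nn hV x a) (Real.exp_pos _).le, ← Real.exp_mul, hmid, Ll_shift,
      mul_comm (H (shift ((a + 1) * ℓ) x) 0 N) p]
  have hd1 : DepLt ((a + 1) * ℓ) (fun x : ℕ → ℝ => Rr K ℓ x a ^ p) := by
    intro x x' h
    have := Pool.Agent.H68.CEL.Rr_congr K ℓ h (a := a) le_rfl
    show Rr K ℓ x a ^ p = Rr K ℓ x' a ^ p
    rw [this]
  have hd2 : DepLt (b * ℓ) (fun x : ℕ → ℝ => Rr K ℓ x a ^ p *
      Real.exp (p * H (shift ((a + 1) * ℓ) x) 0 N)) := by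
    intro x x' h
    have h1 := Pool.Agent.H68.CEL.Rr_congr K ℓ h (a := a) (Nat.mul_le_mul_right ℓ hab)
    have h2 := Pool.Agent.H68.CEL.H_congr h (a := (a + 1) * ℓ) (b := b * ℓ) le_rfl
    show Rr K ℓ x a ^ p * Real.exp (p * H (shift ((a + 1) * ℓ) x) 0 N) =
      Rr K ℓ x' a ^ p * Real.exp (p * H (shift ((a + 1) * ℓ) x') 0 N)
    rw [← hmid, ← hmid, h1, h2]
  have i12 := integrable_mul_shift ν (t := (a + 1) * ℓ) hd1 r1 m1
  have i123 := integrable_mul_shift ν (t := b * ℓ) hd2 i12 l1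
  have v12 := integral_mul_shift ν (t := (a + 1) * ℓ) hd1 r1.aestronglyMeasurable
    m1.aestronglyMeasurable
  have v123 := integral_mul_shift ν (t := b * ℓ) hd2 i12.aestronglyMeasurable
    l1.aestronglyMeasurable
  have hfun : (fun x : ℕ → ℝ => st K ℓ x a b ^ p) = fun x => (Rr K ℓ x a ^ p *
      Real.exp (p * H (shift ((a + 1) * ℓ) x) 0 N)) * Ll K ℓ (shift (b * ℓ) x) 0 ^ p :=
    funext hst
  rw [hfun]
  refine ⟨i123, ?_⟩
  rw [v123, v12, m2]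
  have h5 : 0 ≤ Mo ν p ^ N := pow_nonneg (Mo_nn ν _) _
  have h6 : 0 ≤ ∫ x : ℕ → ℝ, Ll K ℓ x 0 ^ p ∂(iid ν) :=
    integral_nonneg fun x => Real.rpow_nonneg (Ll_nn hV x 0) _
  calc _ ≤ (B * Mo ν p ^ N) * B :=
        mul_le_mul (mul_le_mul_of_nonneg_right r2 h5) l2 h6 (mul_nonneg hB0 h5)
    _ = _ := by ring

theorem rpow_sum_le {ι : Type} (F : Finset ι) (f : ι → ℝ) (hf : ∀ i ∈ F, 0 ≤ f i) {p : ℝ}
    (hp : 0 < p) (hp1 : p ≤ 1) : (∑ i ∈ F, f i) ^ p ≤ ∑ i ∈ F, f i ^ p := by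
  classical
  induction F using Finset.induction_on with
  | empty => simp [Real.zero_rpow hp.ne']
  | insert a s ha ih =>
    rw [Finset.sum_insert ha, Finset.sum_insert ha]
    have h1 : 0 ≤ f a := hf a (Finset.mem_insert_self _ _)
    have h2 : 0 ≤ ∑ i ∈ s, f i := Finset.sum_nonneg fun i hi => hf i (Finset.mem_insert_of_mem hi)
    have h3 := ih fun i hi => hf i (Finset.mem_insert_of_mem hi)
    have h4 := Real.rpow_add_le_add_rpow h1 h2 hp.le hp1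
    linarith

theorem pf_BL2 (hPRE : Pool.Agent.H55.CG.T_PRE) (hPCB : T_PCB) (hAAM : T_AAM) : T_BL2 := by
  intro K ν _ hint ℓ α κ p B aY aV S T hℓ hα hκ hκ1 hp hp1 haY hST hMp hM hB
  have hV : 0 < VV K ℓ := (hPCB K ℓ hℓ).1
  set P : ℕ := aY + aV with hP
  set s₁ := Finset.Ico (S * P + aY) ((S + 1) * P) with hs₁
  set s₂ := Finset.Ico (T * P + aY) ((T + 1) * P) with hs₂
  have hAA : ∀ x : ℕ → ℝ, AA K ℓ α κ aY aV S T x =
      ∑ q ∈ s₁ ×ˢ s₂, lk α κ (q.2 + 1 - q.1) * st K ℓ x q.1 q.2 := by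
    intro x
    unfold AA
    rw [Finset.sum_product]
  have hq : ∀ q ∈ s₁ ×ˢ s₂, q.1 + 1 ≤ q.2 ∧ (T - S - 1) * P ≤ q.2 - q.1 - 1 := by
    intro q hq
    rw [Finset.mem_product, hs₁, hs₂, Finset.mem_Ico, Finset.mem_Ico] at hq
    obtain ⟨⟨h1, h2⟩, h3, h4⟩ := hq
    have h5 : (S + 1) * P + (T - S - 1) * P = T * P := by
      rw [← Nat.add_mul]
      congr 1
      omega
    constructor <;> omega
  have hst0 : ∀ (x : ℕ → ℝ) (a b : ℕ), 0 ≤ st K ℓ x a b := by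
    intro x a b
    unfold st
    exact mul_nonneg (mul_nonneg (Rr_nn hV x a) (Real.exp_pos _).le) (Ll_nn hV x b)
  have hlk0 : ∀ n, 0 ≤ lk α κ n := by
    intro n
    unfold lk
    positivity
  have hlk1 : ∀ n, 1 ≤ n → lk α κ n ≤ 1 := by
    intro n hn
    unfold lk
    have h1 : (n : ℝ) ^ (-(1 + α)) ≤ 1 :=
      Real.rpow_le_one_of_one_le_of_nonpos (by exact_mod_cast hn) (by linarith)
    calc κ * (n : ℝ) ^ (-(1 + α)) ≤ 1 * 1 := mul_le_mul hκ1 h1 (by positivity) zero_le_one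
      _ = 1 := one_mul 1
  have hpt : ∀ x : ℕ → ℝ, AA K ℓ α κ aY aV S T x ^ p ≤ ∑ q ∈ s₁ ×ˢ s₂, st K ℓ x q.1 q.2 ^ p := by
    intro x
    rw [hAA]
    refine (rpow_sum_le _ _ (fun q _ => mul_nonneg (hlk0 _) (hst0 _ _ _)) hp hp1).trans ?_
    apply Finset.sum_le_sum
    intro q hq'
    obtain ⟨h1, -⟩ := hq q hq'
    apply Real.rpow_le_rpow (mul_nonneg (hlk0 _) (hst0 _ _ _)) _ hp.le
    calc lk α κ (q.2 + 1 - q.1) * st K ℓ x q.1 q.2 ≤ 1 * st K ℓ x q.1 q.2 :=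
          mul_le_mul_of_nonneg_right (hlk1 _ (by omega)) (hst0 _ _ _)
      _ = _ := one_mul _
  have hAA0 : ∀ x : ℕ → ℝ, 0 ≤ AA K ℓ α κ aY aV S T x := by
    intro x
    rw [hAA]
    exact Finset.sum_nonneg fun q _ => mul_nonneg (hlk0 _) (hst0 _ _ _)
  have hsi : Integrable (fun x : ℕ → ℝ => ∑ q ∈ s₁ ×ˢ s₂, st K ℓ x q.1 q.2 ^ p) (iid ν) :=
    integrable_finsetSum _ fun q hq' =>
      (st_bound hPRE ν hint K ℓ q.1 q.2 (hq q hq').1 hV hB hp hp1 hM).1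
  have hi : Integrable (fun x : ℕ → ℝ => AA K ℓ α κ aY aV S T x ^ p) (iid ν) := by
    have hm := (hAAM K ℓ α κ aY aV 0 S T).1
    refine Integrable.mono' hsi (hm.pow_const p).aestronglyMeasurable
      (Filter.Eventually.of_forall fun x => ?_)
    rw [Real.norm_of_nonneg (Real.rpow_nonneg (hAA0 x) _)]
    exact hpt x
  refine ⟨hi, ?_⟩
  have hB0 : 0 ≤ B := by
    have := pow_nonneg (Mo_nn ν 1) ℓ
    linarith
  have hMp1 : Mo ν p ^ ℓ ≤ 1 := pow_le_one₀ (Mo_nn ν _) hMp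
  calc ∫ x : ℕ → ℝ, AA K ℓ α κ aY aV S T x ^ p ∂(iid ν) ≤
      ∫ x : ℕ → ℝ, ∑ q ∈ s₁ ×ˢ s₂, st K ℓ x q.1 q.2 ^ p ∂(iid ν) := integral_mono hi hsi hpt
    _ = ∑ q ∈ s₁ ×ˢ s₂, ∫ x : ℕ → ℝ, st K ℓ x q.1 q.2 ^ p ∂(iid ν) :=
        integral_finsetSum _ fun q hq' =>
          (st_bound hPRE ν hint K ℓ q.1 q.2 (hq q hq').1 hV hB hp hp1 hM).1
    _ ≤ ∑ _q ∈ s₁ ×ˢ s₂, B ^ 2 * (Mo ν p ^ ℓ) ^ ((T - S - 1) * P) := by
        apply Finset.sum_le_sum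
        intro q hq'
        obtain ⟨h1, h2⟩ := hq q hq'
        refine (st_bound hPRE ν hint K ℓ q.1 q.2 h1 hV hB hp hp1 hM).2.trans ?_
        rw [Nat.mul_comm (q.2 - q.1 - 1) ℓ, pow_mul]
        exact mul_le_mul_of_nonneg_left
          (pow_le_pow_of_le_one (pow_nonneg (Mo_nn ν _) _) hMp1 h2) (by positivity)
    _ = ((s₁ ×ˢ s₂).card : ℝ) * (B ^ 2 * (Mo ν p ^ ℓ) ^ ((T - S - 1) * P)) := by
        rw [Finset.sum_const, nsmul_eq_mul]
    _ = (aV : ℝ) ^ 2 * B ^ 2 * (Mo ν p ^ ℓ) ^ ((T - S - 1) * P) := by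
        have h1 : (s₁ ×ˢ s₂).card = aV * aV := by
          have e1 : (S + 1) * P - (S * P + aY) = aV := by
            have : (S + 1) * P = S * P + P := by ring
            omega
          have e2 : (T + 1) * P - (T * P + aY) = aV := by
            have : (T + 1) * P = T * P + P := by ring
            omega
          rw [Finset.card_product, hs₁, hs₂, Nat.card_Ico, Nat.card_Ico, e1, e2]
        rw [h1]
        push_cast
        ring

end Pool.Agent.H67.CEL
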