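import Pool.Agent.H98.CE.Targets

/-!
# Row PXC of cel_modules: composition of intervals of cells
-/

set_option autoImplicit false

open MeasureTheory ProbabilityTheory Filter Topology
open Pool.Agent.H95 Pool.Agent.H95.Cop Pool.Agent.H98.CE

namespace Pool.Agent.H67.CEL

theorem lk_anti {α κ : ℝ} (hα : 0 < α) (hκ : 0 ≤ κ) {m n : ℕ} (hm : 1 ≤ m) (hmn : m ≤ n) :
    lk α κ n ≤ lk α κ m := by
  unfold lk
  apply mul_le_mul_of_nonneg_left _ hκ
  apply Real.rpow_le_rpow_of_nonpos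
  · exact_mod_cast hm
  · exact_mod_cast hmn
  · linarith

theorem lk_nonneg {α κ : ℝ} (hκ : 0 ≤ κ) (n : ℕ) : 0 ≤ lk α κ n := by
  unfold lk
  positivity

theorem pf_PXC (hPCB : T_PCB) (_hPXS : T_PXS) (hCMP : T_CMP) : T_PXC := by
  intro K ℓ α κ hℓ hα hκ hHK x a b c d e f g h D hbd hde hdg hfc
  have hpc := (hPCB K ℓ hℓ).2
  have hpos : ∀ u v, 0 ≤ pc K ℓ x u v := fun u v => ((hpc u v).1 x 0).1
  have hzero : ∀ u v, v < u → pc K ℓ x u v = 0 := fun u v hv => ((hpc u v).1 x 0).2.2 hv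
  unfold PX
  have key : ∀ a' ∈ Finset.Ico a b, ∀ b' ∈ Finset.Ico g h,
      (∑ u ∈ Finset.Ico c d, pc K ℓ x a' u) * lk α κ D *
        (∑ v ∈ Finset.Ico e f, pc K ℓ x v b') ≤ pc K ℓ x a' b' := by
    intro a' ha' b' hb'
    rw [Finset.mem_Ico] at ha' hb'
    have h1 := hCMP K ℓ α κ hℓ hα hκ hHK x a' b' d (by omega) (by omega)
    refine le_trans ?_ h1
    have e1 : (∑ u ∈ Finset.Ico c d, pc K ℓ x a' u) * lk α κ D *
        (∑ v ∈ Finset.Ico e f, pc K ℓ x v b') =
        ∑ p ∈ Finset.Ico c d ×ˢ Finset.Ico e f,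
          pc K ℓ x a' p.1 * lk α κ D * pc K ℓ x p.2 b' := by
      rw [Finset.sum_mul, Finset.sum_mul_sum, Finset.sum_product]
    have e2 : ∑ u ∈ Finset.Ico a' d, ∑ v ∈ Finset.Icc d b',
        (if u + 2 ≤ v then pc K ℓ x a' u * lk α κ (v + 1 - u) * pc K ℓ x v b' else 0) =
        ∑ p ∈ Finset.Ico a' d ×ˢ Finset.Icc d b', (if p.1 + 2 ≤ p.2 then
          pc K ℓ x a' p.1 * lk α κ (p.2 + 1 - p.1) * pc K ℓ x p.2 b' else 0) := by
      rw [Finset.sum_product]
    have hT : ∀ p : ℕ × ℕ, 0 ≤ (if p.1 + 2 ≤ p.2 then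
          pc K ℓ x a' p.1 * lk α κ (p.2 + 1 - p.1) * pc K ℓ x p.2 b' else 0) := by
      intro p
      split_ifs
      · exact mul_nonneg (mul_nonneg (hpos _ _) (lk_nonneg hκ _)) (hpos _ _)
      · exact le_rfl
    rw [e1, e2]
    calc ∑ p ∈ Finset.Ico c d ×ˢ Finset.Ico e f,
          pc K ℓ x a' p.1 * lk α κ D * pc K ℓ x p.2 b' ≤
        ∑ p ∈ Finset.Ico c d ×ˢ Finset.Ico e f, (if p ∈ Finset.Ico a' d ×ˢ Finset.Icc d b' then
          (if p.1 + 2 ≤ p.2 then
            pc K ℓ x a' p.1 * lk α κ (p.2 + 1 - p.1) * pc K ℓ x p.2 b' else 0) else 0) := by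
          apply Finset.sum_le_sum
          rintro ⟨u, v⟩ hp
          rw [Finset.mem_product, Finset.mem_Ico, Finset.mem_Ico] at hp
          obtain ⟨⟨hu1, hu2⟩, hv1, hv2⟩ := hp
          simp only at hu1 hu2 hv1 hv2 ⊢
          split_ifs with h2 h3
          · refine mul_le_mul_of_nonneg_right ?_ (hpos _ _)
            exact mul_le_mul_of_nonneg_left (lk_anti hα hκ (by omega) (by omega)) (hpos _ _)
          · exfalso
            omega
          · rw [Finset.mem_product, Finset.mem_Ico, Finset.mem_Icc] at h2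
            simp only at h2
            rcases lt_or_ge u a' with h4 | h4
            · rw [hzero _ _ h4, zero_mul, zero_mul]
            · rcases lt_or_ge b' v with h5 | h5
              · rw [hzero _ _ h5, mul_zero]
              · exact absurd ⟨⟨h4, hu2⟩, by omega, h5⟩ h2
      _ = ∑ p ∈ (Finset.Ico c d ×ˢ Finset.Ico e f).filter
            (fun p => p ∈ Finset.Ico a' d ×ˢ Finset.Icc d b'), (if p.1 + 2 ≤ p.2 then
            pc K ℓ x a' p.1 * lk α κ (p.2 + 1 - p.1) * pc K ℓ x p.2 b' else 0) := by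
          rw [Finset.sum_filter]
      _ ≤ _ := by
          apply Finset.sum_le_sum_of_subset_of_nonneg
          · intro p hp
            exact (Finset.mem_filter.1 hp).2
          · intro p _ _
            exact hT p
  calc (∑ u ∈ Finset.Ico a b, ∑ v ∈ Finset.Ico c d, pc K ℓ x u v) * lk α κ D *
      (∑ u ∈ Finset.Ico e f, ∑ v ∈ Finset.Ico g h, pc K ℓ x u v) =
      ∑ a' ∈ Finset.Ico a b, ∑ b' ∈ Finset.Ico g h, (∑ u ∈ Finset.Ico c d, pc K ℓ x a' u) *
        lk α κ D * (∑ v ∈ Finset.Ico e f, pc K ℓ x v b') := by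
        rw [Finset.sum_comm (s := Finset.Ico e f), Finset.sum_mul, Finset.sum_mul_sum]
    _ ≤ _ := Finset.sum_le_sum fun a' ha' => Finset.sum_le_sum fun b' hb' => key a' ha' b' hb'

end Pool.Agent.H67.CEL
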