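import Pool.Agent.H98.CE.Targets

/-!
# Row SFB of cel_modules: the functional `sf`
-/

set_option autoImplicit false

open MeasureTheory ProbabilityTheory Filter Topology
open Pool.Agent.H95 Pool.Agent.H95.Cop Pool.Agent.H98.CE

namespace Pool.Agent.H67.CEL

theorem lk_nonneg' {α κ : ℝ} (hκ : 0 ≤ κ) (n : ℕ) : 0 ≤ lk α κ n := by
  unfold lk
  positivity

theorem qq_facts (hPCB : T_PCB) (K : PMF ℕ) (ℓ : ℕ) (hℓ : 1 ≤ ℓ) (c : ℕ) :
    (∀ x : ℕ → ℝ, 0 ≤ qq K ℓ x c ∧ qq K ℓ x c ≤ 1) ∧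
    Measurable (fun x : ℕ → ℝ => qq K ℓ x c) ∧
    DepLt ((c + 1) * ℓ) (fun x : ℕ → ℝ => qq K ℓ x c) ∧
    ∀ x : ℕ → ℝ, qq K ℓ x c = qq K ℓ (shift (c * ℓ) x) 0 := by
  obtain ⟨-, h⟩ := hPCB K ℓ hℓ
  obtain ⟨h1, h2, h3⟩ := h c c
  refine ⟨fun x => ⟨le_min zero_le_one (h1 x 0).1, min_le_left _ _⟩, measurable_const.min h2,
    fun x x' hx => ?_, fun x => ?_⟩
  · unfold Pool.Agent.H98.CE.qq
    have h4 : pc K ℓ x c c = pc K ℓ x' c c := h3 x x' hx
    show min 1 (pc K ℓ x c c) = min 1 (pc K ℓ x' c c)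
    rw [h4]
  · unfold Pool.Agent.H98.CE.qq
    have := ((h 0 0).1 x c).2.1
    rw [this, Nat.zero_add]

theorem qq_int (hPCB : T_PCB) (K : PMF ℕ) (ν : Measure ℝ) [IsProbabilityMeasure ν] (ℓ : ℕ)
    (hℓ : 1 ≤ ℓ) (c : ℕ) : Integrable (fun x : ℕ → ℝ => qq K ℓ x c) (iid ν) ∧
    ∫ x : ℕ → ℝ, qq K ℓ x c ∂(iid ν) = ∫ x : ℕ → ℝ, qq K ℓ x 0 ∂(iid ν) := by
  obtain ⟨h1, h2, -, h4⟩ := qq_facts hPCB K ℓ hℓ c
  obtain ⟨g1, g2, -, -⟩ := qq_facts hPCB K ℓ hℓ 0
  constructor
  · refine Integrable.of_bound h2.aestronglyMeasurable 1 (Filter.Eventually.of_forall fun x => ?_)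
    rw [Real.norm_of_nonneg (h1 x).1]
    exact (h1 x).2
  · have gi : Integrable (fun x : ℕ → ℝ => qq K ℓ x 0) (iid ν) := by
      refine Integrable.of_bound g2.aestronglyMeasurable 1 (Filter.Eventually.of_forall fun x => ?_)
      rw [Real.norm_of_nonneg (g1 x).1]
      exact (g1 x).2
    have h5 := integral_comp_shift ν (t := c * ℓ) (g := fun x => qq K ℓ x 0) gi
    rw [← h5]
    exact integral_congr_ae (Filter.Eventually.of_forall h4)

theorem pf_SFB (hPCB : T_PCB) : T_SFB := by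
  intro K ν _ ℓ α κ n glo ghi hℓ hα hκ hglo hsum k
  set q : ℝ := ∫ x : ℕ → ℝ, qq K ℓ x 0 ∂(iid ν) with hq
  set σ : ℝ := ∑ s ∈ Finset.Ico glo ghi, lk α κ (s + n + 1) with hσ
  induction k with
  | zero =>
    have e : ∀ x : ℕ → ℝ, sf K ℓ α κ n glo ghi 0 x = 1 := fun x => by rw [sf]
    refine ⟨?_, fun x => ?_, fun x x' _ => ?_, ?_⟩
    · simp only [e]
      exact measurable_const
    · rw [e]
      constructor <;> norm_num
    · simp only [e]
    · simp only [e]
      simp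
  | succ k ih =>
    obtain ⟨hm, hb, hd, hi⟩ := ih
    have e : ∀ x : ℕ → ℝ, sf K ℓ α κ n glo ghi (k + 1) x = 1 + ∑ s ∈ Finset.Ico glo ghi,
        lk α κ (s + n + 1) * (qq K ℓ x s * sf K ℓ α κ n glo ghi k (shift ((s + 1) * ℓ) x)) :=
      fun x => by rw [sf]
    have hterm : ∀ (x : ℕ → ℝ) (s : ℕ), 0 ≤ lk α κ (s + n + 1) * (qq K ℓ x s *
        sf K ℓ α κ n glo ghi k (shift ((s + 1) * ℓ) x)) ∧ lk α κ (s + n + 1) * (qq K ℓ x s *
        sf K ℓ α κ n glo ghi k (shift ((s + 1) * ℓ) x)) ≤ lk α κ (s + n + 1) * 2 := by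
      intro x s
      obtain ⟨h1, h2⟩ := (qq_facts hPCB K ℓ hℓ s).1 x
      obtain ⟨h3, h4⟩ := hb (shift ((s + 1) * ℓ) x)
      have h5 := lk_nonneg' (α := α) hκ (s + n + 1)
      constructor
      · exact mul_nonneg h5 (mul_nonneg h1 (by linarith))
      · refine mul_le_mul_of_nonneg_left ?_ h5
        calc _ ≤ 1 * 2 := mul_le_mul h2 h4 (by linarith) zero_le_one
          _ = 2 := one_mul 2
    have hmt : ∀ s, Measurable (fun x : ℕ → ℝ => qq K ℓ x s *
        sf K ℓ α κ n glo ghi k (shift ((s + 1) * ℓ) x)) := fun s =>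
      (qq_facts hPCB K ℓ hℓ s).2.1.mul (hm.comp (measurable_shift _))
    have hti : ∀ s, Integrable (fun x : ℕ → ℝ => qq K ℓ x s *
        sf K ℓ α κ n glo ghi k (shift ((s + 1) * ℓ) x)) (iid ν) := by
      intro s
      refine Integrable.of_bound (hmt s).aestronglyMeasurable 2
        (Filter.Eventually.of_forall fun x => ?_)
      obtain ⟨h1, h2⟩ := (qq_facts hPCB K ℓ hℓ s).1 x
      obtain ⟨h3, h4⟩ := hb (shift ((s + 1) * ℓ) x)
      rw [Real.norm_of_nonneg (mul_nonneg h1 (by linarith))]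
      calc _ ≤ 1 * 2 := mul_le_mul h2 h4 (by linarith) zero_le_one
        _ = 2 := one_mul 2
    refine ⟨?_, fun x => ?_, ?_, ?_⟩
    · simp only [e]
      exact measurable_const.add (Finset.measurable_fun_sum _ fun s _ =>
        measurable_const.mul (hmt s))
    · rw [e]
      constructor
      · have : 0 ≤ ∑ s ∈ Finset.Ico glo ghi, lk α κ (s + n + 1) * (qq K ℓ x s *
            sf K ℓ α κ n glo ghi k (shift ((s + 1) * ℓ) x)) :=
          Finset.sum_nonneg fun s _ => (hterm x s).1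
        linarith
      · have h1 : ∑ s ∈ Finset.Ico glo ghi, lk α κ (s + n + 1) * (qq K ℓ x s *
            sf K ℓ α κ n glo ghi k (shift ((s + 1) * ℓ) x)) ≤
            ∑ s ∈ Finset.Ico glo ghi, lk α κ (s + n + 1) * 2 :=
          Finset.sum_le_sum fun s _ => (hterm x s).2
        rw [← Finset.sum_mul] at h1
        linarith
    · intro x x' hx
      simp only [e]
      congr 1
      apply Finset.sum_congr rfl
      intro s hs
      rw [Finset.mem_Ico] at hs
      have h1 : (s + 1) * ℓ ≤ (k + 1) * (ghi + 1) * ℓ := by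
        apply Nat.mul_le_mul_right
        nlinarith
      have h2 := (qq_facts hPCB K ℓ hℓ s).2.2.1 x x' (fun i hi => hx i (lt_of_lt_of_le hi h1))
      have h3 := hd (shift ((s + 1) * ℓ) x) (shift ((s + 1) * ℓ) x') (by
        intro i hi
        rw [shift_apply, shift_apply]
        apply hx
        have h4 : k * (ghi + 1) * ℓ + (s + 1) * ℓ ≤ (k + 1) * (ghi + 1) * ℓ := by
          rw [← Nat.add_mul]
          apply Nat.mul_le_mul_right
          nlinarith
        omega)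
      simp only at h2 h3
      rw [h2, h3]
    · have h1 : ∀ s ∈ Finset.Ico glo ghi, ∫ x : ℕ → ℝ, lk α κ (s + n + 1) * (qq K ℓ x s *
          sf K ℓ α κ n glo ghi k (shift ((s + 1) * ℓ) x)) ∂(iid ν) =
          lk α κ (s + n + 1) * (q * ∑ i ∈ Finset.range (k + 1), (σ * q) ^ i) := by
        intro s _
        rw [integral_const_mul]
        congr 1
        have h2 := integral_mul_shift ν (t := (s + 1) * ℓ) (f := fun x : ℕ → ℝ => qq K ℓ x s)
          (g := fun x => sf K ℓ α κ n glo ghi k x) (qq_facts hPCB K ℓ hℓ s).2.2.1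
          (qq_facts hPCB K ℓ hℓ s).2.1.aestronglyMeasurable hm.aestronglyMeasurable
        rw [hi, (qq_int hPCB K ν ℓ hℓ s).2] at h2
        exact h2
      simp only [e]
      rw [integral_add (integrable_const _) (integrable_finsetSum _ fun s _ =>
        (hti s).const_mul _), integral_finsetSum _ (fun s _ => (hti s).const_mul _),
        Finset.sum_congr rfl h1, ← Finset.sum_mul, ← hσ, Finset.sum_range_succ' _ (k + 1)]
      simp only [integral_const, probReal_univ, smul_eq_mul, mul_one, pow_zero, pow_succ]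
      rw [← Finset.sum_mul]
      ring

end Pool.Agent.H67.CEL
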